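import Pool.Agent.Y138.PC.Lines

/-!
# Closures of groups of rational points in a line over a field of endomorphisms

Let `A` be a simple abelian variety over `ℚ` of dimension `n`, `p` a prime number and `E` a subfield
of the algebra of endomorphisms of `A` (defined over `ℚ`, up to isogeny), `O` the ring of the
elements of `E` which are endomorphisms. The type `A` below is the compact group `A(ℚ_p)`, and
`log` is the logarithm of `A` at `p`, with values in the Lie algebra of `A` over `ℚ_p`, in
coordinates with respect to a basis of the Lie algebra over `ℚ`; `δ` is the action of `E` on the Lie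
algebra, and `M` is `A(ℚ)`.

The hypothesis `hM` is the `p`-adic analytic subgroup theorem for `A`: a nonzero invariant
differential form `ω` defined over the algebraic numbers does not vanish at the logarithm of a point
`P` of infinite order of `A(ℚ)`. (If it did, `P` would be contained in a proper algebraic subgroup of
`A`; the smallest such subgroup is defined over `ℚ`, but `A` is simple.)

Theorem: if `L` is a finitely generated subgroup of `A(ℚ)` which is contained, up to isogeny, in the
line `E P` spanned by a point `P`, then the closure of `L` in `A(ℚ_p)` is isomorphic to the sum of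
`m` copies of the `p`-adic integers up to finite groups, where `m` is the rank of `L`.
-/

namespace Pool.Agent.Results.MP_52423f_nt.EndomorphismLines

open Pool.Agent.Y138.PC

theorem result {p : ℕ} [Fact p.Prime] {n : ℕ} {A : Type*} [AddCommGroup A] [TopologicalSpace A]
    [IsTopologicalAddGroup A] [CompactSpace A] [T2Space A]
    -- the logarithm
    (log : A →+ (Fin n → ℚ_[p])) (hlog : Continuous log) (hker : Finite log.ker)
    -- the rational points and the analytic subgroup theorem
    (M : AddSubgroup A)
    (hM : ∀ P ∈ M, (∀ N : ℕ, 0 < N → N • P ≠ 0) →
      ∀ ω : (Fin n → ℚ) →ₗ[ℚ] AlgebraicClosure ℚ_[p], (∀ u, IsAlgebraic ℚ (ω u)) → ω ≠ 0 →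
        pairing ω (log P) ≠ 0)
    -- the field of endomorphisms
    {E : Type*} [Field E] [NumberField E] (O : Subring E) [Module O A]
    (δ : E →ₐ[ℚ] Matrix (Fin n) (Fin n) ℚ)
    (hδ : ∀ (a : O) (x : A), log (a • x) =
      ((δ (a : E)).map (algebraMap ℚ ℚ_[p])).mulVec (log x))
    -- the subgroup, contained in the line of a point
    (P : A) (hP : P ∈ M) (L : AddSubgroup A) (hL : L.FG)
    (hline : ∀ x ∈ L, ∃ a b : O, a ≠ 0 ∧ a • x = b • P) :
    HasZpRank p L.topologicalClosure (Module.finrank ℤ L) :=
  rank_of_line log hlog hker O δ hδ P (hM P hP) L hL hline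

end Pool.Agent.Results.MP_52423f_nt.EndomorphismLines
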